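import Pool.Agent.Helper76.PP.Goals3
import Pool.Agent.Helper40.RD.TRF

/-!
# Project PP (MP_fc6b1e_nt), packet B_FRE: the primes above `v`
-/

set_option autoImplicit false

namespace Pool.Agent.Helper83.PP

open NumberField Polynomial Module IsDedekindDomain
open Pool.Agent.Helper51.RP
open Pool.Agent.Helper40.RS (bel gw gw_inj efg bel_smul lies)
open Pool.Agent.Helper40.RD (valW ordW bel_of_above)
open scoped Pointwise

section

variable {K M : Type} [Field K] [NumberField K] [Field M] [NumberField M] [Algebra K M]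
  [IsGalois K M]

theorem smul_eq_of_val (g : M ≃ₐ[K] M) (w : HeightOneSpectrum (𝓞 M))
    (h : ∀ y : M, w.valuation M (g y) = w.valuation M y) : g • w.asIdeal = w.asIdeal := by
  ext x
  have h0 : x ∈ g • w.asIdeal ↔ g⁻¹ • x ∈ w.asIdeal := Ideal.mem_pointwise_smul_iff_inv_smul_mem
  rw [h0, ← HeightOneSpectrum.valuation_lt_one_iff_mem (K := M),
    ← HeightOneSpectrum.valuation_lt_one_iff_mem (K := M), ← h]
  have : g (algebraMap (𝓞 M) M (g⁻¹ • x)) = algebraMap (𝓞 M) M x := by
    have h2 : algebraMap (𝓞 M) M (g⁻¹ • x) = g⁻¹ (algebraMap (𝓞 M) M x) := rfl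
    rw [h2]
    exact AlgEquiv.apply_symm_apply g _
  rw [this]

/-- If `e f = 1` then the decomposition group is trivial. -/
theorem free_of_ef (w : HeightOneSpectrum (𝓞 M))
    (h : w.asIdeal.ramificationIdx (𝓞 K) * w.asIdeal.inertiaDeg (𝓞 K) = 1) : FreeP K w := by
  have h1 := efg (K := K) w
  rw [h, mul_one] at h1
  have hfin : Finite ((bel K w).asIdeal.primesOver (𝓞 M)) :=
    (IsDedekindDomain.primesOver_finite (bel K w).asIdeal (𝓞 M))
  let φ : (M ≃ₐ[K] M) → (bel K w).asIdeal.primesOver (𝓞 M) := fun g ↦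
    ⟨g • w.asIdeal, (gw g w).isPrime, by
      have : bel K (gw g w) = bel K w := bel_smul g w (gw g w) rfl
      rw [← this]
      exact lies (K := K) (gw g w)⟩
  have hsur : Function.Surjective φ := by
    rintro ⟨Q, hQ, hQ'⟩
    obtain ⟨g, hg⟩ := Ideal.exists_smul_eq_of_isGaloisGroup (bel K w).asIdeal w.asIdeal Q
      (M ≃ₐ[K] M)
    exact ⟨g, Subtype.ext hg⟩
  have hcard : Nat.card (M ≃ₐ[K] M) = Nat.card ((bel K w).asIdeal.primesOver (𝓞 M)) := by
    rw [IsGalois.card_aut_eq_finrank K M, Nat.card_coe_set_eq, h1]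
  have hinj : Function.Injective φ := by
    have := (Nat.bijective_iff_surjective_and_card φ).2 ⟨hsur, hcard⟩
    exact this.1
  intro g hg
  apply hinj
  apply Subtype.ext
  show g • w.asIdeal = (1 : M ≃ₐ[K] M) • w.asIdeal
  rw [one_smul]
  exact smul_eq_of_val g w hg

end

theorem b_fre : Pool.Agent.Helper76.PP.B_FRE := by
  intro K F _ _ _ _ _ _ v
  have hmap : Set.MapsTo (fun W : HeightOneSpectrum (𝓞 F) ↦ W.asIdeal)
      {W : HeightOneSpectrum (𝓞 F) | Above W v} (v.asIdeal.primesOver (𝓞 F)) := by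
    intro W hW
    have h1 := bel_of_above (w := v) hW
    refine ⟨W.isPrime, ?_⟩
    rw [← h1]
    exact lies (K := K) W
  have hinj : Set.InjOn (fun W : HeightOneSpectrum (𝓞 F) ↦ W.asIdeal)
      {W : HeightOneSpectrum (𝓞 F) | Above W v} := by
    intro W _ W' _ h
    exact HeightOneSpectrum.ext h
  have hfin0 : (v.asIdeal.primesOver (𝓞 F)).Finite :=
    IsDedekindDomain.primesOver_finite v.asIdeal (𝓞 F)
  have hfin := hfin0.of_injOn hmap hinj
  refine ⟨hfin, ?_, ?_⟩
  · rcases Set.eq_empty_or_nonempty {W : HeightOneSpectrum (𝓞 F) | Above W v} with he | ⟨W, hW⟩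
    · rw [he, Set.ncard_empty]
      exact Nat.zero_le _
    · refine (Set.ncard_le_ncard_of_injOn _ hmap hinj hfin0).trans ?_
      have h1 := bel_of_above (w := v) hW
      have h2 := efg (K := K) W
      rw [h1] at h2
      rw [← h2]
      refine Nat.le_mul_of_pos_right _ (Nat.pos_of_ne_zero fun h0 ↦ ?_)
      rw [h0, mul_zero] at h2
      have : 0 < finrank K F := finrank_pos
      omega
  · intro W hW
    have hb := bel_of_above (w := v) hW
    have h2 := efg (K := K) W
    have hn := Ideal.absNorm_pow_inertiaDeg (bel K W).asIdeal W.asIdeal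
    rw [hb] at hn
    have h3 : W.asIdeal.ramificationIdx (𝓞 K) * W.asIdeal.inertiaDeg (𝓞 K) ≠ 0 := by
      intro h0
      rw [h0, mul_zero] at h2
      have : 0 < finrank K F := finrank_pos
      omega
    have hf0 : W.asIdeal.inertiaDeg (𝓞 K) ≠ 0 := fun h0 ↦ h3 (by rw [h0, mul_zero])
    refine ⟨?_, fun hunr hfree hp ↦ ?_⟩
    · rw [← hn]
      exact Nat.le_self_pow hf0 _
    · obtain ⟨x, hx⟩ := HeightOneSpectrum.valuation_exists_uniformizer K v
      have h4 := hunr x
      rw [ordW, hb] at h4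
      have h5 : ordv v x = 1 := by
        unfold ordv
        rw [hx]
        simp
      rw [h5, mul_one] at h4
      have h6 : W.asIdeal.ramificationIdx (𝓞 K) = 1 := by
        rw [← hb, Ideal.ramificationIdx'_eq_ramificationIdx _ _ (bel K W).ne_bot] at h4
        exact_mod_cast h4
      have h7 : W.asIdeal.inertiaDeg (𝓞 K) ≠ 1 := by
        intro h7
        exact hfree (free_of_ef W (by rw [h6, h7]))
      rw [← hn] at hp
      exact Nat.Prime.not_prime_pow (by omega) hp

end Pool.Agent.Helper83.PP
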