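import Pool.Agent.Helper17.PP.GoalsC1

/-!
# Project PP (MP_fc6b1e_nt), packet C_LAB: label functions
-/

namespace Pool.Agent.Helper83.PP

open Finset Pool.Agent.Helper17.PP

variable {B k : Type} [Field k] [Fintype k]

theorem lab_card (P : Finset B) : (lab k P).card = Fintype.card k ^ P.card := by
  classical
  unfold lab
  rw [card_image_of_injective]
  · rw [card_univ, Fintype.card_fun, Fintype.card_coe]
  · intro f g h
    funext q
    have := congrFun h q.1
    simpa using this

theorem lab_add {P : Finset B} {f g : B → k} (hf : f ∈ lab k P) (hg : g ∈ lab k P) :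
    f + g ∈ lab k P := by
  rw [mem_lab] at *
  intro q hq
  simp [hf q hq, hg q hq]

theorem lab_sub {P : Finset B} {f g : B → k} (hf : f ∈ lab k P) (hg : g ∈ lab k P) :
    f - g ∈ lab k P := by
  rw [mem_lab] at *
  intro q hq
  simp [hf q hq, hg q hq]

theorem lab_mono {D P : Finset B} (h : D ⊆ P) {f : B → k} (hf : f ∈ lab k D) : f ∈ lab k P := by
  rw [mem_lab] at *
  exact fun q hq ↦ hf q fun hq' ↦ hq (h hq')

theorem lab_sum_add (P : Finset B) (F : (B → k) → ℂ) {z : B → k} (hz : z ∈ lab k P) :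
    ∑ f ∈ lab k P, F (f + z) = ∑ f ∈ lab k P, F f := by
  refine sum_nbij' (fun f ↦ f + z) (fun f ↦ f - z) ?_ ?_ ?_ ?_ ?_
  · exact fun f hf ↦ lab_add hf hz
  · exact fun f hf ↦ lab_sub hf hz
  · exact fun f _ ↦ by simp
  · exact fun f _ ↦ by simp
  · exact fun f _ ↦ rfl

open Classical in
/-- The decomposition along `D ⊆ P`. -/
theorem lab_split {D P : Finset B} (h : D ⊆ P) (F : (B → k) → ℂ) :
    ∑ f ∈ lab k P, F f = ∑ g ∈ lab k D, ∑ e ∈ lab k (P \ D), F (e + g) := by
  rw [← sum_product']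
  symm
  refine sum_nbij' (fun z ↦ z.2 + z.1)
    (fun f ↦ (fun q ↦ if q ∈ D then f q else 0, fun q ↦ if q ∈ D then 0 else f q))
    ?_ ?_ ?_ ?_ ?_
  · rintro ⟨g, e⟩ hz
    rw [mem_product] at hz
    exact lab_add (lab_mono sdiff_subset hz.2) (lab_mono h hz.1)
  · intro f hf
    rw [mem_product, mem_lab, mem_lab]
    rw [mem_lab] at hf
    refine ⟨fun q hq ↦ by simp [hq], fun q hq ↦ ?_⟩
    by_cases hD : q ∈ D
    · simp [hD]
    · simp only [hD, if_false]
      exact hf q fun hP ↦ hq (mem_sdiff.2 ⟨hP, hD⟩)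
  · rintro ⟨g, e⟩ hz
    rw [mem_product, mem_lab, mem_lab] at hz
    ext q
    · by_cases hD : q ∈ D
      · have : e q = 0 := hz.2 q (by simp [hD])
        simp [hD, this]
      · have : g q = 0 := hz.1 q hD
        simp [hD, this]
    · by_cases hD : q ∈ D
      · have : e q = 0 := hz.2 q (by simp [hD])
        simp [hD, this]
      · have : g q = 0 := hz.1 q hD
        simp [hD, this]
  · intro f _
    funext q
    by_cases hD : q ∈ D
    · simp [hD]
    · simp [hD]
  · exact fun z _ ↦ rfl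

open Classical in
theorem lab_filter {D P : Finset B} :
    (lab k P).filter (fun f ↦ ∀ q ∈ D, f q = 0) = lab k (P \ D) := by
  ext f
  rw [mem_filter, mem_lab, mem_lab]
  constructor
  · rintro ⟨h1, h2⟩ q hq
    by_cases hD : q ∈ D
    · exact h2 q hD
    · exact h1 q fun hP ↦ hq (mem_sdiff.2 ⟨hP, hD⟩)
  · intro h1
    exact ⟨fun q hq ↦ h1 q fun hq' ↦ hq (mem_sdiff.1 hq').1,
      fun q hq ↦ h1 q fun hq' ↦ (mem_sdiff.1 hq').2 hq⟩

theorem c_lab : C_LAB := by
  intro B k _ _ P
  refine ⟨lab_card P, fun F z hz ↦ lab_sum_add P F hz, ?_, ?_, ?_⟩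
  · intro F u hu z hz h
    have h1 := lab_sum_add P F hz
    rw [sum_congr rfl h, ← mul_sum] at h1
    have h2 : (u - 1) * ∑ f ∈ lab k P, F f = 0 := by rw [sub_mul, one_mul, h1, sub_self]
    rcases mul_eq_zero.1 h2 with h3 | h3
    · exact absurd (sub_eq_zero.1 h3) hu
    · exact h3
  · intro F D hD h
    classical
    rw [lab_split hD F]
    have h1 : ∀ g ∈ lab k D, ∑ e ∈ lab k (P \ D), F (e + g) = ∑ e ∈ lab k (P \ D), F e :=
      fun g hg ↦ sum_congr rfl fun e he ↦ h e (lab_mono sdiff_subset he) g hg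
    rw [sum_congr rfl h1, sum_const, lab_card, nsmul_eq_mul, Nat.cast_pow]
    congr 2
    convert (lab_filter (k := k) (D := D) (P := P)) using 1
  · intro F G D hD h
    classical
    rw [lab_split hD F]
    have h1 : ∀ g ∈ lab k D, ∑ e ∈ lab k (P \ D), F (e + g) =
        (Fintype.card k : ℂ) ^ (P \ D).card * G g := by
      intro g hg
      have : ∀ e ∈ lab k (P \ D), F (e + g) = G g := by
        intro e he
        refine h _ (lab_add (lab_mono sdiff_subset he) (lab_mono hD hg)) g hg fun q hq ↦ ?_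
        have := mem_lab.1 he q (by simp [hq])
        simp [this]
      rw [sum_congr rfl this, sum_const, lab_card, nsmul_eq_mul, Nat.cast_pow]
    rw [sum_congr rfl h1, ← mul_sum, ← mul_assoc, ← pow_add]
    congr 2
    have := card_sdiff_add_card_eq_card hD
    omega

end Pool.Agent.Helper83.PP
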